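import Pool.Agent.Helper90.UN.Goals

/-!
Packet UN-BND (project UN, MP_d3128a_ag, captain helper90): the deviation.
-/

set_option autoImplicit false

noncomputable section

namespace Pool.Agent.Helper15.UN.BND

open Pool.Agent.Helper90.UN

lemma sum_fract_nonneg (k : ℕ) (f : ℕ → ℝ) : 0 ≤ ∑ i ∈ Finset.range k, Int.fract (f i) :=
  Finset.sum_nonneg fun _ _ => Int.fract_nonneg _

lemma sum_fract_le (k : ℕ) (f : ℕ → ℝ) : ∑ i ∈ Finset.range k, Int.fract (f i) ≤ k := by
  calc ∑ i ∈ Finset.range k, Int.fract (f i) ≤ ∑ _i ∈ Finset.range k, (1 : ℝ) :=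
        Finset.sum_le_sum fun i _ => (Int.fract_lt_one _).le
    _ = k := by simp

lemma sum_fract_lt {k : ℕ} (hk : 1 ≤ k) (f : ℕ → ℝ) :
    ∑ i ∈ Finset.range k, Int.fract (f i) < k := by
  calc ∑ i ∈ Finset.range k, Int.fract (f i) < ∑ _i ∈ Finset.range k, (1 : ℝ) :=
        Finset.sum_lt_sum_of_nonempty (Finset.nonempty_range_iff.2 (by omega))
          fun i _ => Int.fract_lt_one _
    _ = k := by simp

/-- fractional part of a multiple of nine -/
lemma nine {g η : ℝ} (hg0 : 0 < g) (hg1 : g < 1) (hη : 0 ≤ η) :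
    -g < 9 * (1 - g) * η - Int.fract (9 * η) := by
  have h1 := Int.self_sub_floor (9 * η)
  have h2 : (0 : ℝ) ≤ ⌊9 * η⌋ := by
    have : (0 : ℤ) ≤ ⌊9 * η⌋ := Int.floor_nonneg.2 (by positivity)
    exact_mod_cast this
  have h3 := Int.fract_lt_one (9 * η)
  have h5 : (0 : ℝ) ≤ (1 - g) * ⌊9 * η⌋ := mul_nonneg (by linarith) h2
  have h6 : g * Int.fract (9 * η) < g * 1 := mul_lt_mul_of_pos_left h3 hg0
  have h7 : 9 * η = ⌊9 * η⌋ + Int.fract (9 * η) := (Int.floor_add_fract _).symm
  have h8 : 9 * (1 - g) * η = (1 - g) * (⌊9 * η⌋ + Int.fract (9 * η)) := by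
    rw [← h7]; ring
  rw [h8]
  linarith

lemma fract_neg' {x : ℝ} (h : 0 < Int.fract (-x)) : Int.fract (-x) = 1 - Int.fract x := by
  have hx : Int.fract x ≠ 0 := by
    intro h0
    have : Int.fract (-x) = 0 := Int.fract_neg_eq_zero.2 h0
    linarith
  exact Int.fract_neg hx

theorem t : S_BND := by
  intro n k A θ ε hn hsq hW
  obtain ⟨hε0, hε1, hk1, hk2, hθ0, hθ1, hA, hf1, hf2⟩ := hW
  set r : ℝ := √(n : ℝ) with hr
  have hirr : Irrational r := by
    rw [hr, irrational_sqrt_natCast_iff]
    exact hsq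
  have hn' : (10 : ℝ) ≤ n := by exact_mod_cast hn
  have hr0 : 0 ≤ r := Real.sqrt_nonneg _
  have hrr : r * r = n := Real.mul_self_sqrt (by linarith)
  have hr3 : 3 < r := by nlinarith
  -- the integer `K`
  obtain ⟨K, hK1, hK2⟩ : ∃ K : ℕ, (K : ℝ) + 1 < r / 3 ∧ r / 3 < K + 2 := by
    have h1 : 1 < r / 3 := by linarith
    have h2 : 2 ≤ ⌈r / 3⌉₊ := by
      have : 1 < ⌈r / 3⌉₊ := Nat.lt_ceil.2 (by exact_mod_cast h1)
      omega
    refine ⟨⌈r / 3⌉₊ - 2, ?_, ?_⟩
    · have h3 := Nat.ceil_lt_add_one (by linarith : 0 ≤ r / 3)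
      rw [Nat.cast_sub h2]
      push_cast
      linarith
    · have h3 := Nat.le_ceil (r / 3)
      rw [Nat.cast_sub h2]
      push_cast
      rcases lt_or_eq_of_le h3 with h4 | h4
      · linarith
      · exfalso
        apply hirr
        refine ⟨3 * ⌈r / 3⌉₊, ?_⟩
        push_cast
        rw [← h4]
        ring
  set g : ℝ := r / 3 - K - 1 with hg
  have hg0 : 0 < g := by linarith
  have hg1 : g < 1 := by linarith
  have hr' : r = 3 * (K + 1 + g) := by rw [hg]; ring
  have hgg : 0 < g * (1 - g) := mul_pos hg0 (by linarith)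
  unfold WW
  set T₁ : ℝ := ∑ i ∈ Finset.range k, Int.fract (-(3 * r) * (ε + i)) with hS1
  set T₂ : ℝ := ∑ i ∈ Finset.range (k - 1), Int.fract (-(3 * r) * (ε + i) - 9 * ε) with hS2
  have hS1n : 0 ≤ T₁ := sum_fract_nonneg _ _
  have hS2n : 0 ≤ T₂ := sum_fract_nonneg _ _
  have hS2l : T₂ ≤ ((k - 1 : ℕ) : ℝ) := sum_fract_le _ _
  rcases lt_or_ge ε g with hc | hc
  · -- case 1: `k = K + 2`
    have hk : k = K + 2 := by
      have h1 : (K + 1 : ℕ) < k := by
        have : ((K + 1 : ℕ) : ℝ) < k := by push_cast; linarith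
        exact_mod_cast this
      have h2 : k < K + 3 := by
        have : (k : ℝ) < ((K + 3 : ℕ) : ℝ) := by push_cast; linarith
        exact_mod_cast this
      omega
    have hkr : (k : ℝ) = K + 2 := by rw [hk]; push_cast; ring
    have hA0 : A = 0 := by
      rcases hA with h | ⟨_, h⟩
      · exact h
      · exfalso
        rw [hkr] at h
        linarith
    have e1 : (k - r / 3 + ε) * (1 - (k - r / 3 + ε)) - ε * (1 - ε) = (1 - g) * (g - 2 * ε) := by
      rw [hkr, hg]; ring
    rw [e1, hA0]
    have hS1l : T₁ < k := sum_fract_lt (by omega) _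
    have hk1' : ((k - 1 : ℕ) : ℝ) = K + 1 := by
      rw [hk]; push_cast; ring
    rw [hk1'] at hS2l
    rw [hkr] at hS1l
    have hb1 : (1 - g) * (g - 2 * ε) ≤ (1 - g) * g :=
      mul_le_mul_of_nonneg_left (by linarith) (by linarith)
    have hb2 : -((1 - g) * g) ≤ (1 - g) * (g - 2 * ε) := by
      have := mul_le_mul_of_nonneg_left (show -g ≤ g - 2 * ε by linarith) (show 0 ≤ 1 - g by linarith)
      linarith
    rcases Nat.eq_zero_or_pos K with hK0 | hK0
    · -- `K = 2`
      subst hK0
      have hk2' : k = 2 := by omega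
      have hr2 : r = 3 * (1 + g) := by rw [hr']; push_cast; ring
      have hnr : (n : ℝ) = 9 * (1 + g) ^ 2 := by rw [← hrr, hr2]; ring
      have hS1' : T₁ = Int.fract (-(3 * r * ε)) + Int.fract (-(3 * r) * (ε + 1)) := by
        rw [hS1, hk2', Finset.sum_range_succ, Finset.sum_range_one]
        push_cast
        rw [add_zero, neg_mul]
      have hS2' : T₂ = Int.fract (-((3 * r + 9) * ε)) := by
        rw [hS2, hk2', Finset.sum_range_one]
        push_cast
        congr 1
        ring
      have hn1 : 0 < Int.fract (-(3 * r * ε)) := by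
        have := hf1 0 (by omega)
        push_cast at this
        rw [add_zero, neg_mul] at this
        exact this
      have hn2 : 0 < Int.fract (-((3 * r + 9) * ε)) := by
        have := hf2 0 (by omega)
        push_cast at this
        rw [add_zero] at this
        rw [show -((3 * r + 9) * ε) = -(3 * r) * ε - 9 * ε by ring]
        exact this
      rw [hr2, abs_lt]
      rw [hS1', hS2']
      constructor
      · -- lower bound
        set η : ℝ := g - ε with hη
        have hη0 : 0 ≤ η := by linarith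
        have f1 : Int.fract (-(3 * r) * (ε + 1)) = Int.fract (3 * r * η) := by
          have : -(3 * r) * (ε + 1) = 3 * r * η - (n : ℤ) := by
            push_cast
            rw [hnr, hr2, hη]; ring
          rw [this, Int.fract_sub_intCast]
        have f2 : Int.fract (-((3 * r + 9) * ε)) = Int.fract ((3 * r + 9) * η) := by
          have : -((3 * r + 9) * ε) = (3 * r + 9) * η - ((n - 9 : ℤ) : ℝ) := by
            push_cast
            rw [hnr, hr2, hη]; ring
          rw [this, Int.fract_sub_intCast]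
        have f3 : Int.fract ((3 * r + 9) * η) ≤ Int.fract (3 * r * η) + Int.fract (9 * η) := by
          have := Int.fract_add_le (3 * r * η) (9 * η)
          rw [← add_mul] at this
          exact this
        have f4 := nine hg0 hg1 hη0
        have f5 : (1 - g) * (g - 2 * ε) = 2 * ((1 - g) * η) - (1 - g) * g := by rw [hη]; ring
        rw [f1, f2, f5]
        have f6 : 4 * g - 9 / 2 * g ^ 2 ≤ 1 := by nlinarith [sq_nonneg (g - 4 / 9)]
        have f7 := Int.fract_nonneg (-(3 * r * ε))
        linarith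
      · have f1 := fract_neg' hn1
        have f2 := fract_neg' hn2
        have f3 : Int.fract ((3 * r + 9) * ε) ≤ Int.fract (3 * r * ε) + Int.fract (9 * ε) := by
          have := Int.fract_add_le (3 * r * ε) (9 * ε)
          rw [← add_mul] at this
          exact this
        have f4 := nine hg0 hg1 hε0.le
        have f5 := Int.fract_lt_one (-(3 * r) * (ε + 1))
        rw [f1, f2]
        have f6 : 4 * g - 9 / 2 * g ^ 2 ≤ 1 := by nlinarith [sq_nonneg (g - 4 / 9)]
        have f7 := Int.fract_nonneg (-(3 * r * ε))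
        linarith
    · -- `K ≥ 3`
      have hK : (1 : ℝ) ≤ K := by exact_mod_cast hK0
      rw [hr', abs_lt]
      constructor
      · linarith [sq_nonneg (3 * g - 1)]
      · linarith [sq_nonneg (3 * g - 1)]
  · -- case 2: `k = K + 1`
    have hk : k = K + 1 := by
      have h1 : K < k := by
        have : (K : ℝ) < k := by linarith
        exact_mod_cast this
      have h2 : k < K + 2 := by
        have : (k : ℝ) < ((K + 2 : ℕ) : ℝ) := by push_cast; linarith
        exact_mod_cast this
      omega
    have hkr : (k : ℝ) = K + 1 := by rw [hk]; push_cast; ring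
    have e1 : (k - r / 3 + ε) * (1 - (k - r / 3 + ε)) - ε * (1 - ε) = g * (2 * ε - 1 - g) := by
      rw [hkr, hg]; ring
    rw [e1]
    have hS1l : T₁ < k := sum_fract_lt (by omega) _
    have hk1' : ((k - 1 : ℕ) : ℝ) = K := by
      rw [hk]; push_cast; ring
    rw [hk1'] at hS2l
    rw [hkr] at hS1l
    have hb1 : g * (2 * ε - 1 - g) ≤ g * (1 - g) :=
      mul_le_mul_of_nonneg_left (by linarith) hg0.le
    have hb2 : -(g * (1 - g)) ≤ g * (2 * ε - 1 - g) := by
      have := mul_le_mul_of_nonneg_left (show -(1 - g) ≤ 2 * ε - 1 - g by linarith) hg0.le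
      linarith
    rcases hA with hA0 | ⟨hA1, hA2⟩
    · rw [hA0]
      rcases Nat.eq_zero_or_pos K with hK0 | hK0
      · subst hK0
        rw [Nat.cast_zero] at hS1l hS2l hr'
        rw [hr', abs_lt]
        constructor
        · linarith [sq_nonneg (3 * g - 1)]
        · linarith [sq_nonneg (3 * g - 1)]
      · have hK : (1 : ℝ) ≤ K := by exact_mod_cast hK0
        rw [hr', abs_lt]
        constructor
        · linarith [sq_nonneg (3 * g - 1)]
        · linarith [sq_nonneg (3 * g - 1)]
    · have hεg : ε = g := by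
        rw [hkr] at hA2
        linarith
      rw [hA1, hεg]
      have e2 : g * (2 * g - 1 - g) = -(g * (1 - g)) := by ring
      rw [e2]
      have hK : (0 : ℝ) ≤ K := Nat.cast_nonneg K
      rw [hr', abs_lt]
      constructor
      · linarith [sq_nonneg (2 * g - 1)]
      · linarith

end Pool.Agent.Helper15.UN.BND
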